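import Pool.Agent.X75.Fano

/-!
# MP_6fdec2_co: generalized q-deformations of simplicial complexes

There is a simplicial complex `Δ` on seven vertices for which no two-variable polynomial
interpolates the characteristic polynomials `χ(S_Δ^q, t)` over all finite fields.
-/

set_option autoImplicit false

namespace Pool.Agent.Results.MP_6fdec2_co.NoInterpolation

open Pool.Agent.X75.Fano

/-- **Q1 is false.** There is a simplicial complex `Δ` on the vertex set `Fin 7` such that no
polynomial `P(q, t)` with complex coefficients satisfies `χ(S_Δ^q, t) = P(q, t)` for every finite
field (with `q` elements) and every `t`. -/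
theorem result : ∃ Δ : SimplicialComplex 7, ¬ ∃ P : MvPolynomial (Fin 2) ℂ,
    ∀ (F : Type) [Field F] [Fintype F] (t : ℂ),
      Polynomial.aeval t (charPoly F (deformation F Δ)) =
        MvPolynomial.eval ![(Fintype.card F : ℂ), t] P :=
  main

end Pool.Agent.Results.MP_6fdec2_co.NoInterpolation
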